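import Pool.Agent.Q134.NDMain

set_option autoImplicit false

/-!
# Large non-separating independent sets in duals of link diagrams

`Q134.ND.Diagram D` is the projection of a non-split link diagram with at least one crossing, as a
4-valent combinatorial map on the sphere with the set `D` of darts (half-edges).

Proof.  Mod 2 cycles are boundaries of sets of regions (a dimension count with Euler's formula), so
the regions have a checkerboard colouring, and at a crossing that is not a cut vertex and carries no
curl opposite corners lie in different regions.  A set `S` of regions such that no two corners at
one crossing lie in (the same or different) regions of `S` does not separate: the neighbours of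
`f ∈ S` along two consecutive sides of `f` are joined through the opposite corner.  Curls have
monogon regions, which are leaves of the dual graph.  If there are few curls, a greedy choice among
the regions with at most 8 sides gives `S` of linear size.
-/

namespace Pool.Agent.Results.MP_1d20a2_co.LinearSize

open Q134.ND

/-- There is a constant `δ > 0` (for instance `1 / 96`) such that the dual graph of every reduced
non-split link diagram with `n ≥ 1` crossings contains a non-separating independent set of at least
`δ n` regions. -/
theorem result : ∃ δ : ℝ, 0 < δ ∧ ∀ (D : Type) [Finite D] [Nonempty D] (M : Diagram D),
    M.Reduced → ∃ S : Set M.Region, M.NonSeparatingIndependent S ∧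
      δ * (Nat.card M.Crossing : ℝ) ≤ (S.ncard : ℝ) := by
  refine ⟨1 / 96, by norm_num, ?_⟩
  intro D _ _ M hred
  have := Fintype.ofFinite D
  obtain ⟨S, h1, h2⟩ := main M hred
  refine ⟨S, h1, ?_⟩
  have h3 : (Nat.card M.Crossing : ℝ) ≤ 96 * (S.ncard : ℝ) := by exact_mod_cast h2
  linarith

end Pool.Agent.Results.MP_1d20a2_co.LinearSize
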